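import Pool.Agent.H96.AL.Targets1

/-!
Module SB: stability of gradient curves.
-/

set_option autoImplicit false

open Topology Set Filter Real Pool.Agent.H96.AL

namespace Pool.Agent.H54.AL

/-- Gronwall, integral form -/
theorem sb_gronwall {φ : ℝ → ℝ} (hφ : Continuous φ) {K Λ T : ℝ} (hK : 0 ≤ K) (hΛ : 0 ≤ Λ)
    (hT : 0 ≤ T) (h : ∀ t ∈ Icc (0 : ℝ) T, φ t - φ 0 ≤ ∫ r in (0 : ℝ)..t, (K + 2 * Λ * φ r)) :
    φ T ≤ exp (2 * Λ * T) * (φ 0 + K * T) := by
  have hc : Continuous fun r => K + 2 * Λ * φ r := by fun_prop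
  set u : ℝ → ℝ := fun t => φ 0 + ∫ r in (0 : ℝ)..t, (K + 2 * Λ * φ r) with hu
  have hu1 : ∀ t, HasDerivAt u (K + 2 * Λ * φ t) t := by
    intro t
    have := (hc.integral_hasStrictDerivAt 0 t).hasDerivAt
    simpa [hu] using this.const_add (φ 0)
  set H : ℝ → ℝ := fun t => exp (-(2 * Λ * t)) * u t - K * t with hH
  have hH1 : ∀ t, HasDerivAt H (exp (-(2 * Λ * t)) * (K + 2 * Λ * φ t - 2 * Λ * u t) - K) t := by
    intro t
    have e1 : HasDerivAt (fun t : ℝ => exp (-(2 * Λ * t))) (exp (-(2 * Λ * t)) * (-(2 * Λ))) t := by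
      have : HasDerivAt (fun t : ℝ => -(2 * Λ * t)) (-(2 * Λ)) t := by
        have h0 := (hasDerivAt_id t).const_mul (-(2 * Λ))
        simp only [id, mul_one, neg_mul] at h0
        exact h0
      exact this.exp
    have e2 := (e1.mul (hu1 t)).sub ((hasDerivAt_id t).const_mul K)
    refine e2.congr_deriv ?_
    simp
    ring
  have hanti : AntitoneOn H (Icc 0 T) := by
    refine antitoneOn_of_deriv_nonpos (convex_Icc 0 T) ?_ ?_ ?_
    · exact fun t _ => (hH1 t).continuousAt.continuousWithinAt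
    · exact fun t _ => (hH1 t).differentiableAt.differentiableWithinAt
    · intro t ht
      rw [interior_Icc] at ht
      rw [(hH1 t).deriv]
      have h1 : φ t ≤ u t := by
        have := h t (Ioo_subset_Icc_self ht)
        simp only [hu]
        linarith
      have h2 : exp (-(2 * Λ * t)) ≤ 1 := by
        rw [exp_le_one_iff]
        have := mul_nonneg (mul_nonneg (by norm_num : (0 : ℝ) ≤ 2) hΛ) ht.1.le
        linarith
      have h3 : 2 * Λ * φ t ≤ 2 * Λ * u t := mul_le_mul_of_nonneg_left h1 (by positivity)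
      have h4 : exp (-(2 * Λ * t)) * (K + 2 * Λ * φ t - 2 * Λ * u t) ≤ exp (-(2 * Λ * t)) * K :=
        mul_le_mul_of_nonneg_left (by linarith) (exp_pos _).le
      have h5 : exp (-(2 * Λ * t)) * K ≤ 1 * K := mul_le_mul_of_nonneg_right h2 hK
      linarith
  have hfin := hanti (left_mem_Icc.2 hT) (right_mem_Icc.2 hT) hT
  have hu0 : u 0 = φ 0 := by simp [hu]
  have hH0 : H 0 = φ 0 := by simp [hH, hu0]
  rw [hH0] at hfin
  have h1 : φ T ≤ u T := by
    have := h T (right_mem_Icc.2 hT)
    simp only [hu]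
    linarith
  have h2 : exp (-(2 * Λ * T)) * u T ≤ φ 0 + K * T := by
    simp only [hH] at hfin
    linarith
  calc φ T ≤ u T := h1
    _ = exp (2 * Λ * T) * (exp (-(2 * Λ * T)) * u T) := by
      rw [← mul_assoc, ← exp_add]
      simp
    _ ≤ exp (2 * Λ * T) * (φ 0 + K * T) := mul_le_mul_of_nonneg_left h2 (exp_pos _).le

theorem sb_cont {X : Type} [MetricSpace X] {L : ℝ} {α : ℝ → X}
    (h : ∀ s t : ℝ, 0 ≤ s → 0 ≤ t → dist (α s) (α t) ≤ L * |s - t|) :
    Continuous fun r => α (max r 0) := by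
  have : LipschitzWith ⟨|L|, abs_nonneg L⟩ fun r => α (max r 0) := by
    refine LipschitzWith.of_dist_le_mul fun a b => ?_
    have h1 := h (max a 0) (max b 0) (le_max_right _ _) (le_max_right _ _)
    have h2 : |max a 0 - max b 0| ≤ |a - b| := abs_max_sub_max_le_abs a b 0
    calc dist (α (max a 0)) (α (max b 0)) ≤ L * |max a 0 - max b 0| := h1
      _ ≤ |L| * |max a 0 - max b 0| := mul_le_mul_of_nonneg_right (le_abs_self L) (abs_nonneg _)
      _ ≤ |L| * |a - b| := mul_le_mul_of_nonneg_left h2 (abs_nonneg _)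
      _ = _ := by rw [Real.dist_eq]; rfl
  exact this.continuous

theorem sb (hRI : T_RI) : T_SB := by
  intro X _ D hX g g' f f' L L' Λ c c' δ hΛ hc hc' hδ hf hf' hg hg' hff α β hα hβ T hT
  have hαc := sb_cont hα.lip
  have hβc := sb_cont hβ.lip
  set A : ℝ → X := fun r => α (max r 0) with hA
  set B : ℝ → X := fun r => β (max r 0) with hB
  have hAe : ∀ r, 0 ≤ r → α r = A r := fun r hr => by simp [hA, max_eq_left hr]
  have hBe : ∀ r, 0 ≤ r → β r = B r := fun r hr => by simp [hB, max_eq_left hr]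
  set K : ℝ := 2 * δ + c + c' with hKdef
  have hK : 0 ≤ K := by positivity
  set φ : ℝ → ℝ := fun r => dist (A r) (B r) ^ 2 / 2 with hφ
  have hφc : Continuous φ := by
    simp only [hφ]
    exact ((hαc.dist hβc).pow 2).div_const 2
  have hψc : Continuous fun r => K + 2 * Λ * φ r := by fun_prop
  -- the combined integrand
  set F : ℝ × ℝ × ℝ → ℝ := fun p => (f (A p.2.2) - f (B p.2.1) +
    Λ / 2 * dist (A p.2.2) (B p.2.1) ^ 2 + c) + (f' (B p.2.2) - f' (A p.1) +
    Λ / 2 * dist (B p.2.2) (A p.1) ^ 2 + c') with hF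
  have hFc : Continuous F := by
    have h1 : Continuous fun p : ℝ × ℝ × ℝ => A p.2.2 := hαc.comp (continuous_snd.comp continuous_snd)
    have h2 : Continuous fun p : ℝ × ℝ × ℝ => B p.2.2 := hβc.comp (continuous_snd.comp continuous_snd)
    have h3 : Continuous fun p : ℝ × ℝ × ℝ => B p.2.1 := hβc.comp (continuous_fst.comp continuous_snd)
    have h4 : Continuous fun p : ℝ × ℝ × ℝ => A p.1 := hαc.comp continuous_fst
    have e1 : Continuous fun p : ℝ × ℝ × ℝ => dist (A p.2.2) (B p.2.1) := h1.dist h3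
    have e2 : Continuous fun p : ℝ × ℝ × ℝ => dist (B p.2.2) (A p.1) := h2.dist h4
    have e3 := hf.comp h1
    have e4 := hf.comp h3
    have e5 := hf'.comp h2
    have e6 := hf'.comp h4
    simp only [Function.comp_def] at e3 e4 e5 e6
    simp only [hF]
    fun_prop
  have hF0 : ∀ r, F (r, r, r) ≤ K + 2 * Λ * φ r := by
    intro r
    have h1 := abs_le.1 (hff (A r))
    have h2 := abs_le.1 (hff (B r))
    have h3 : dist (B r) (A r) = dist (A r) (B r) := dist_comm _ _
    simp only [hF, hφ, h3, hKdef]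
    nlinarith [h1.2, h2.1]
  have key : ∀ t ∈ Icc (0 : ℝ) T, φ t - φ 0 ≤ ∫ r in (0 : ℝ)..t, (K + 2 * Λ * φ r) := by
    intro t₀ ht₀
    refine hRI φ (fun r => K + 2 * Λ * φ r) 0 t₀ ht₀.1 hφc.continuousOn hψc.continuousOn ?_
    intro r₀ hr₀ ε hε
    have hev : ∀ᶠ p in 𝓝 ((r₀, r₀, r₀) : ℝ × ℝ × ℝ), F p < K + 2 * Λ * φ r₀ + ε := by
      refine hFc.continuousAt.eventually_lt continuousAt_const ?_
      exact lt_of_le_of_lt (hF0 r₀) (by linarith)
    obtain ⟨d, hd, hball⟩ := Metric.eventually_nhds_iff.1 hev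
    refine ⟨r₀ + d / 2, by linarith, ?_⟩
    intro s t hs hst ht _
    have hs0 : 0 ≤ s := hr₀.1.trans hs
    have ht0 : 0 ≤ t := hs0.trans hst
    have e1 := hα.evi (β t) (fun z => f z - f (β t) + Λ / 2 * dist z (β t) ^ 2 + c)
      (by fun_prop) (fun z => by
        have := hg z (β t)
        refine (congrArg (DGe g z (β t)) ?_).mp this
        ring) s t hs0 hst
    have e2 := hβ.evi (α s) (fun z => f' z - f' (α s) + Λ / 2 * dist z (α s) ^ 2 + c')
      (by fun_prop) (fun z => by
        have := hg' z (α s)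
        refine (congrArg (DGe g' z (α s)) ?_).mp this
        ring) s t hs0 hst
    have i1 : ∫ r in s..t, (f (α r) - f (β t) + Λ / 2 * dist (α r) (β t) ^ 2 + c) =
        ∫ r in s..t, (f (A r) - f (B t) + Λ / 2 * dist (A r) (B t) ^ 2 + c) := by
      refine intervalIntegral.integral_congr fun r hr => ?_
      rw [uIcc_of_le hst] at hr
      simp only [hAe r (hs0.trans hr.1), hBe t ht0]
    have i2 : ∫ r in s..t, (f' (β r) - f' (α s) + Λ / 2 * dist (β r) (α s) ^ 2 + c') =
        ∫ r in s..t, (f' (B r) - f' (A s) + Λ / 2 * dist (B r) (A s) ^ 2 + c') := by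
      refine intervalIntegral.integral_congr fun r hr => ?_
      rw [uIcc_of_le hst] at hr
      simp only [hBe r (hs0.trans hr.1), hAe s hs0]
    have c1 : Continuous fun r => f (A r) - f (B t) + Λ / 2 * dist (A r) (B t) ^ 2 + c := by
      have := hf.comp hαc
      simp only [Function.comp_def] at this
      have h2 : Continuous fun r => dist (A r) (B t) := hαc.dist continuous_const
      fun_prop
    have c2 : Continuous fun r => f' (B r) - f' (A s) + Λ / 2 * dist (B r) (A s) ^ 2 + c' := by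
      have := hf'.comp hβc
      simp only [Function.comp_def] at this
      have h2 : Continuous fun r => dist (B r) (A s) := hβc.dist continuous_const
      fun_prop
    have e3 : (∫ r in s..t, (f (A r) - f (B t) + Λ / 2 * dist (A r) (B t) ^ 2 + c)) +
        (∫ r in s..t, (f' (B r) - f' (A s) + Λ / 2 * dist (B r) (A s) ^ 2 + c')) ≤
        (t - s) * (K + 2 * Λ * φ r₀ + ε) := by
      rw [← intervalIntegral.integral_add (c1.intervalIntegrable s t) (c2.intervalIntegrable s t)]
      have : ∫ r in s..t, (K + 2 * Λ * φ r₀ + ε) = (t - s) * (K + 2 * Λ * φ r₀ + ε) := by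
        rw [intervalIntegral.integral_const, smul_eq_mul]
      rw [← this]
      refine intervalIntegral.integral_mono_on hst ((c1.add c2).intervalIntegrable s t)
        (continuous_const.intervalIntegrable s t) fun r hr => ?_
      have hb : F (s, t, r) < K + 2 * Λ * φ r₀ + ε := by
        apply hball
        rw [Prod.dist_eq, Prod.dist_eq, Real.dist_eq, Real.dist_eq, Real.dist_eq]
        have a1 : |s - r₀| < d := by rw [abs_lt]; constructor <;> linarith
        have a2 : |t - r₀| < d := by rw [abs_lt]; constructor <;> linarith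
        have a3 : |r - r₀| < d := by rw [abs_lt]; constructor <;> linarith [hr.1, hr.2]
        exact max_lt a1 (max_lt a2 a3)
      exact hb.le
    simp only [i1] at e1
    simp only [i2] at e2
    have e4 : dist (β t) (α s) = dist (α s) (β t) := dist_comm _ _
    have e5 : dist (β s) (α s) = dist (α s) (β s) := dist_comm _ _
    rw [e4, e5] at e2
    have e6 : φ t = dist (α t) (β t) ^ 2 / 2 := by simp only [hφ, ← hAe t ht0, ← hBe t ht0]
    have e7 : φ s = dist (α s) (β s) ^ 2 / 2 := by simp only [hφ, ← hAe s hs0, ← hBe s hs0]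
    rw [e6, e7]
    linarith
  have hG := sb_gronwall hφc hK hΛ hT key
  have e6 : φ T = dist (α T) (β T) ^ 2 / 2 := by simp only [hφ, ← hAe T hT, ← hBe T hT]
  have e7 : φ 0 = dist (α 0) (β 0) ^ 2 / 2 := by
    simp only [hφ, ← hAe 0 le_rfl, ← hBe 0 le_rfl]
  rw [e6, e7] at hG
  have : exp (2 * Λ * T) * (dist (α 0) (β 0) ^ 2 + (4 * δ + 2 * c + 2 * c') * T) =
      2 * (exp (2 * Λ * T) * (dist (α 0) (β 0) ^ 2 / 2 + K * T)) := by
    rw [hKdef]
    ring
  rw [this]
  linarith

end Pool.Agent.H54.AL
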